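import Mathlib

namespace Pool.Agent.Lib.MP_b29421_co

open Finset

/-- Double counting. -/
theorem exists_popular {ι β : Type*} (I : Finset ι) (hI : I.Nonempty) (Y : Finset β)
    (rel : ι → β → Prop) [∀ i y, Decidable (rel i y)] (k : ℕ)
    (h : ∀ y ∈ Y, I.card ≤ k * (I.filter (fun i => rel i y)).card) :
    ∃ i ∈ I, Y.card ≤ k * (Y.filter (fun y => rel i y)).card := by
  obtain ⟨i, hi, hmax⟩ := I.exists_max_image (fun i => (Y.filter (fun y => rel i y)).card) hI
  refine ⟨i, hi, ?_⟩
  have h1 : Y.card * I.card ≤ ∑ y ∈ Y, k * (I.filter (fun i => rel i y)).card := by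
    have := Finset.card_nsmul_le_sum Y (fun y => k * (I.filter (fun i => rel i y)).card) I.card h
    simpa using this
  have h2 : ∑ y ∈ Y, (I.filter (fun i => rel i y)).card
      = ∑ j ∈ I, (Y.filter (fun y => rel j y)).card := by
    simp only [Finset.card_filter]
    exact Finset.sum_comm
  have h3 : ∑ j ∈ I, (Y.filter (fun y => rel j y)).card
      ≤ I.card * (Y.filter (fun y => rel i y)).card := by
    have := Finset.sum_le_card_nsmul I (fun j => (Y.filter (fun y => rel j y)).card) _ hmax
    simpa using this
  rw [← Finset.mul_sum, h2] at h1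
  have h4 : Y.card * I.card ≤ (k * (Y.filter (fun y => rel i y)).card) * I.card := by
    calc Y.card * I.card ≤ k * (I.card * (Y.filter (fun y => rel i y)).card) :=
          h1.trans (Nat.mul_le_mul_left k h3)
      _ = _ := by ring
  exact Nat.le_of_mul_le_mul_right h4 hI.card_pos

/-- Pigeonhole without rounding. -/
theorem exists_fiber {ι β : Type*} [DecidableEq ι] (I : Finset ι) (hI : I.Nonempty)
    (Y : Finset β) (f : β → ι) (hf : ∀ y ∈ Y, f y ∈ I) :
    ∃ i ∈ I, Y.card ≤ I.card * (Y.filter (fun y => f y = i)).card := by
  apply exists_popular I hI Y (fun i y => f y = i) I.card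
  intro y hy
  have : 1 ≤ (I.filter (fun i => f y = i)).card :=
    Finset.card_pos.mpr ⟨f y, Finset.mem_filter.mpr ⟨hf y hy, rfl⟩⟩
  exact Nat.le_mul_of_pos_right _ this

/-- Splitting a finite set of a linear order into an initial and a final part. -/
theorem exists_split {α : Type*} [LinearOrder α] (Y : Finset α) :
    ∀ h ≤ Y.card, ∃ Y₁ Y₂ : Finset α, Y₁ ⊆ Y ∧ Y₂ ⊆ Y ∧ Y₁.card = h ∧ Y₂.card + h = Y.card ∧
      ∀ u ∈ Y₁, ∀ v ∈ Y₂, u < v := by
  induction Y using Finset.induction_on_max with
  | empty =>
    intro h hh
    simp only [Finset.card_empty, Nat.le_zero] at hh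
    exact ⟨∅, ∅, by simp, by simp, by simp [hh], by simp [hh], by simp⟩
  | insert a s hs ih =>
    intro h hh
    have ha : a ∉ s := fun h' => lt_irrefl _ (hs a h')
    rw [Finset.card_insert_of_notMem ha] at hh ⊢
    by_cases hle : h ≤ s.card
    · obtain ⟨Y₁, Y₂, h1, h2, h3, h4, h5⟩ := ih h hle
      have ha2 : a ∉ Y₂ := fun h' => ha (h2 h')
      refine ⟨Y₁, insert a Y₂, h1.trans (Finset.subset_insert _ _),
        Finset.insert_subset_insert _ h2, h3, ?_, ?_⟩
      · rw [Finset.card_insert_of_notMem ha2]; omega
      · intro u hu v hv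
        rcases Finset.mem_insert.mp hv with rfl | hv
        · exact hs u (h1 hu)
        · exact h5 u hu v hv
    · refine ⟨insert a s, ∅, Finset.Subset.refl _, by simp, ?_, ?_, by simp⟩
      · rw [Finset.card_insert_of_notMem ha]; omega
      · simp; omega

/-- Greedy maximal packing by `M`-sets with a hereditary property. -/
theorem exists_packing {α : Type*} [DecidableEq α] (Q : Finset α → Prop)
    (hQ : ∀ A B, A ⊆ B → Q B → Q A) (M : ℕ) (hM : 1 ≤ M) (Z : Finset α) :
    ∃ (W : Finset α) (b : ℕ) (g : α → ℕ), W ⊆ Z ∧ b * M ≤ W.card ∧ (∀ v ∈ W, g v < b) ∧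
      (∀ i < b, Q (W.filter (fun v => g v = i)) ∧ (W.filter (fun v => g v = i)).card ≤ M) ∧
      ∀ A ⊆ Z \ W, A.card = M → ¬ Q A := by
  induction Z using Finset.strongInduction with
  | H Z ih =>
    by_cases hex : ∃ A ⊆ Z, A.card = M ∧ Q A
    · obtain ⟨A, hAZ, hAc, hAQ⟩ := hex
      have hne : A.Nonempty := Finset.card_pos.mp (by omega)
      have hss : Z \ A ⊂ Z := Finset.sdiff_ssubset hAZ hne
      obtain ⟨W, b, g, h1, h2, h3, h4, h5⟩ := ih (Z \ A) hss
      have hdisj : Disjoint W A := by
        rw [Finset.disjoint_left]
        intro v hv hvA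
        exact (Finset.mem_sdiff.mp (h1 hv)).2 hvA
      refine ⟨W ∪ A, b + 1, fun v => if v ∈ A then b else g v, ?_, ?_, ?_, ?_, ?_⟩
      · exact Finset.union_subset (h1.trans Finset.sdiff_subset) hAZ
      · rw [Finset.card_union_of_disjoint hdisj, hAc]; nlinarith
      · intro v hv
        by_cases hvA : v ∈ A
        · simp [hvA]
        · have : v ∈ W := by
            rcases Finset.mem_union.mp hv with h | h
            · exact h
            · exact absurd h hvA
          simp only [hvA, if_false]
          exact Nat.lt_succ_of_lt (h3 v this)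
      · intro i hi
        by_cases hib : i = b
        · have hsub : (W ∪ A).filter (fun v => (if v ∈ A then b else g v) = i) ⊆ A := by
            intro v hv
            obtain ⟨hv1, hv2⟩ := Finset.mem_filter.mp hv
            by_contra hvA
            have : v ∈ W := by
              rcases Finset.mem_union.mp hv1 with h | h
              · exact h
              · exact absurd h hvA
            have := h3 v this
            simp only [hvA, if_false] at hv2
            omega
          exact ⟨hQ _ _ hsub hAQ, hAc ▸ Finset.card_le_card hsub⟩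
        · have hsub : (W ∪ A).filter (fun v => (if v ∈ A then b else g v) = i) ⊆
              W.filter (fun v => g v = i) := by
            intro v hv
            obtain ⟨hv1, hv2⟩ := Finset.mem_filter.mp hv
            have hvA : v ∉ A := by
              intro hvA
              simp only [hvA, if_true] at hv2
              exact hib hv2.symm
            have : v ∈ W := by
              rcases Finset.mem_union.mp hv1 with h | h
              · exact h
              · exact absurd h hvA
            simp only [hvA, if_false] at hv2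
            exact Finset.mem_filter.mpr ⟨this, hv2⟩
          have hi' : i < b := by omega
          exact ⟨hQ _ _ hsub (h4 i hi').1, (Finset.card_le_card hsub).trans (h4 i hi').2⟩
      · intro A' hA'
        apply h5
        intro v hv
        have := Finset.mem_sdiff.mp (hA' hv)
        simp only [Finset.mem_union, not_or] at this
        exact Finset.mem_sdiff.mpr ⟨Finset.mem_sdiff.mpr ⟨this.1, this.2.2⟩, this.2.1⟩
    · refine ⟨∅, 0, fun _ => 0, by simp, by simp, by simp, by simp, ?_⟩
      intro A hA hc hq
      exact hex ⟨A, by simpa using hA, hc, hq⟩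

end Pool.Agent.Lib.MP_b29421_co
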