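import Mathlib

namespace Pool.Agent.Lib.MP_b29421_co

/-- Every `r`-colouring of the edges of the complete graph on the ordered vertex set `Fin N`
contains a monochromatic ordered copy of the `t`-th power of the monotone path on `n` vertices:
a strictly increasing map `f` and a colour `c` such that the edge between `f i` and `f j` has
colour `c` whenever `i < j` and `j - i ≤ t`. -/
def Arrows (r t n N : ℕ) : Prop :=
  ∀ χ : Sym2 (Fin N) → Fin r, ∃ (f : Fin n → Fin N) (c : Fin r), StrictMono f ∧
    ∀ i j : Fin n, i < j → (j : ℕ) - (i : ℕ) ≤ t → χ s(f i, f j) = c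

end Pool.Agent.Lib.MP_b29421_co
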