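import Pool.Agent.Lib.MP_b29421_co.Rounds
import Pool.Agent.Lib.MP_b29421_co.Defs

namespace Pool.Agent.Lib.MP_b29421_co

open Finset

/-- Explicit integer form of the bound. -/
theorem arrows_of_large (r t n M K R G L m N : ℕ) (ht : 1 ≤ t) (hr : 1 ≤ r) (hM : 1 ≤ M)
    (hG : (K + 1) ^ r * ((K + 1) * (12 * r * r * 2 ^ (4 * r * t))) ^ R ≤ G)
    (hMG : 24 * r * r * t * G ≤ M) (hL : n < K ^ (L + 1))
    (hm : r * (M + (L + 1)) < (m + 1) * R) (hN : G ^ (m + 1) < N) : Arrows r t n N := by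
  intro χ
  by_contra hno
  have hN0 : 0 < N := by omega
  have : Nonempty (Fin N) := ⟨⟨0, hN0⟩⟩
  have hst : ∀ c : Fin r, St (fun u v : Fin N => χ s(u, v)) c t M K (M + (L + 1)) Finset.univ := by
    intro c
    refine Or.inr ⟨L, 0, rfl, trivial, ?_⟩
    rintro A - - ⟨-, hl⟩
    have hl' : Lab (fun u v : Fin N => χ s(u, v)) c t n A := hl.le (by omega)
    obtain ⟨f, hf, -⟩ := Lab.path ht n A hl'
    apply hno
    have hn : ∀ j : Fin n, (j : ℕ) < n * t := fun j => lt_of_lt_of_le j.2 (by nlinarith)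
    refine ⟨fun i => f i, c, fun i j hij => (hf i j hij (hn j)).1, fun i j hij hd => ?_⟩
    exact (hf i j hij (hn j)).2 hd
  have := card_bound (fun u v : Fin N => χ s(u, v)) t M K R G ht hr hM hG hMG m
    (fun _ => M + (L + 1)) Finset.univ hst (by simpa using hm)
  simp only [Finset.card_univ, Fintype.card_fin] at this
  omega

/-- The bound with exponent `r (k+1)^2 / k^2`. -/
theorem arrows_pow (r t k : ℕ) (ht : 1 ≤ t) (hr : 1 ≤ r) (hk : 1 ≤ k) :
    ∃ D : ℕ, ∀ n : ℕ, 1 ≤ n → ∃ N : ℕ, Arrows r t n (N + 1) ∧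
      N ^ (k * k) ≤ D * n ^ (r * ((k + 1) * (k + 1))) := by
  set E := 12 * r * r * 2 ^ (4 * r * t) with hE
  have hE1 : 1 ≤ E := by rw [hE]; exact Nat.succ_le_of_lt (by positivity)
  set B := 2 * E with hB
  set K := B ^ k with hK
  have hB2 : 2 ≤ B := by omega
  have hK2 : 2 ≤ K := by
    calc 2 ≤ B := hB2
      _ = B ^ 1 := (pow_one B).symm
      _ ≤ B ^ k := Nat.pow_le_pow_right (by omega) hk
  set e := r * ((k + 1) * (k + 1)) with he
  set G := B ^ e with hGdef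
  set M := 24 * r * r * t * G with hMdef
  have hG1 : 1 ≤ G := Nat.succ_le_of_lt (by positivity)
  have hM1 : 1 ≤ M := Nat.succ_le_of_lt (by positivity)
  have hKE : (K + 1) * E ≤ B ^ (k + 1) := by
    rw [pow_succ, ← hK, hB]; nlinarith
  have hK1 : K + 1 ≤ B ^ (k + 1) := le_trans (Nat.le_mul_of_pos_right _ hE1) hKE
  have hG : (K + 1) ^ r * ((K + 1) * E) ^ (r * k) ≤ G := by
    calc (K + 1) ^ r * ((K + 1) * E) ^ (r * k)
        ≤ (B ^ (k + 1)) ^ r * (B ^ (k + 1)) ^ (r * k) := by gcongr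
      _ = G := by rw [hGdef, he, ← pow_add, ← pow_mul]; congr 1; ring
  refine ⟨K ^ ((M + 1 + k) * e), fun n hn => ?_⟩
  set L := Nat.log K n with hL
  set m := (M + (L + 1)) / k with hm
  have hm1 : M + (L + 1) < (m + 1) * k := by
    have := Nat.lt_div_mul_add (a := M + (L + 1)) (b := k) (by omega)
    nlinarith
  have hm2 : m * k ≤ M + (L + 1) := Nat.div_mul_le_self _ _
  refine ⟨G ^ (m + 1), ?_, ?_⟩
  · refine arrows_of_large r t n M K (r * k) G L m _ ht hr hM1 hG le_rfl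
      (Nat.lt_pow_succ_log_self (by omega) n) ?_ (Nat.lt_succ_self _)
    calc r * (M + (L + 1)) < r * ((m + 1) * k) := Nat.mul_lt_mul_of_pos_left hm1 (by omega)
      _ = (m + 1) * (r * k) := by ring
  · have hKL : K ^ L ≤ n := Nat.pow_log_le_self K (by omega)
    calc (G ^ (m + 1)) ^ (k * k) = (K ^ ((m + 1) * k)) ^ e := by
          rw [hGdef, hK, ← pow_mul, ← pow_mul, ← pow_mul, ← pow_mul]; congr 1; ring
      _ ≤ (K ^ ((M + 1 + k) + L)) ^ e := by
          apply Nat.pow_le_pow_left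
          apply Nat.pow_le_pow_right (by omega)
          nlinarith
      _ = K ^ ((M + 1 + k) * e) * (K ^ L) ^ e := by rw [pow_add, mul_pow, ← pow_mul]
      _ ≤ K ^ ((M + 1 + k) * e) * n ^ e := by gcongr

theorem main_bound (C : ℝ) (hC : 1 < C) (r t : ℕ) (hr : 1 ≤ r) (ht : 1 ≤ t) :
    ∃ D : ℝ, ∀ n : ℕ, 1 ≤ n → ∃ R : ℕ, IsLeast {N : ℕ | Arrows r t n N} R ∧
      (R : ℝ) ≤ D * (n : ℝ) ^ (C * r) := by
  obtain ⟨k, hk⟩ := exists_nat_gt (3 / (C - 1))
  have hC1 : 0 < C - 1 := by linarith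
  have hk0 : (0 : ℝ) < k := lt_trans (by positivity) hk
  have hk1 : 1 ≤ k := by exact_mod_cast Nat.one_le_iff_ne_zero.mpr (by
    rintro rfl; simp at hk0)
  have hk1' : (1 : ℝ) ≤ k := by exact_mod_cast hk1
  have hk3 : 3 < (C - 1) * k := by
    rw [div_lt_iff₀ hC1] at hk; linarith
  obtain ⟨D, hD⟩ := arrows_pow r t k ht hr hk1
  refine ⟨(D : ℝ) + 2, fun n hn => ?_⟩
  obtain ⟨N, hN, hNb⟩ := hD n hn
  have hne : {N : ℕ | Arrows r t n N}.Nonempty := ⟨N + 1, hN⟩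
  refine ⟨sInf {N : ℕ | Arrows r t n N}, ⟨Nat.sInf_mem hne, fun x hx => Nat.sInf_le hx⟩, ?_⟩
  have h1 : sInf {N : ℕ | Arrows r t n N} ≤ N + 1 := Nat.sInf_le hN
  have hn1 : (1 : ℝ) ≤ n := by exact_mod_cast hn
  have hr0 : (0 : ℝ) ≤ r := by positivity
  have hP : (1 : ℝ) ≤ (n : ℝ) ^ (C * r) := Real.one_le_rpow hn1 (by positivity)
  have hkk : k * k ≠ 0 := by positivity
  have h2 : (N : ℝ) ≤ ((D : ℝ) + 1) * (n : ℝ) ^ (C * r) := by
    apply le_of_pow_le_pow_left₀ hkk (by positivity)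
    have e1 : (N : ℝ) ^ (k * k) ≤ (D : ℝ) * (n : ℝ) ^ (r * ((k + 1) * (k + 1))) := by
      exact_mod_cast hNb
    have e2 : (D : ℝ) ≤ ((D : ℝ) + 1) ^ (k * k) :=
      le_trans (by linarith) (le_self_pow₀ (by linarith [Nat.cast_nonneg (α := ℝ) D]) hkk)
    have e3 : (n : ℝ) ^ (r * ((k + 1) * (k + 1))) ≤ ((n : ℝ) ^ (C * r)) ^ (k * k) := by
      rw [← Real.rpow_natCast, ← Real.rpow_natCast, ← Real.rpow_mul (by positivity)]
      apply Real.rpow_le_rpow_of_exponent_le hn1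
      push_cast
      have : ((k : ℝ) + 1) * (k + 1) ≤ C * (k * k) := by nlinarith
      nlinarith
    rw [mul_pow]
    exact e1.trans (mul_le_mul e2 e3 (by positivity) (by positivity))
  have h3 : ((sInf {N : ℕ | Arrows r t n N} : ℕ) : ℝ) ≤ (N : ℝ) + 1 := by exact_mod_cast h1
  nlinarith

end Pool.Agent.Lib.MP_b29421_co
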