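import Pool.Agent.Lib.MP_b29421_co.Count

namespace Pool.Agent.Lib.MP_b29421_co

open Finset

variable {α : Type*} [LinearOrder α] {r : ℕ}

/-- `A` is a clique of colour `c`. -/
def Clq (χ : α → α → Fin r) (c : Fin r) (A : Finset α) : Prop :=
  ∀ u ∈ A, ∀ v ∈ A, u < v → χ u v = c

/-- `A` precedes `B` and all pairs between them have colour `c`. -/
def Cpl (χ : α → α → Fin r) (c : Fin r) (A B : Finset α) : Prop :=
  ∀ u ∈ A, ∀ v ∈ B, u < v ∧ χ u v = c

/-- There is a chain of `w` cliques of size `t` and colour `c`, consecutive ones completely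
joined, whose last clique is completely joined to `B`. -/
def Lab (χ : α → α → Fin r) (c : Fin r) (t : ℕ) : ℕ → Finset α → Prop
  | 0, _ => True
  | w + 1, B => ∃ A : Finset α, A.card = t ∧ Clq χ c A ∧ Cpl χ c A B ∧ Lab χ c t w A

theorem Clq.mono {χ : α → α → Fin r} {c : Fin r} {A B : Finset α} (h : Clq χ c B) (hAB : A ⊆ B) :
    Clq χ c A := fun u hu v hv huv => h u (hAB hu) v (hAB hv) huv

theorem Lab.subset {χ : α → α → Fin r} {c : Fin r} {t w : ℕ} {A B : Finset α}
    (h : Lab χ c t w B) (hAB : A ⊆ B) : Lab χ c t w A := by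
  cases w with
  | zero => trivial
  | succ w =>
    obtain ⟨A', h1, h2, h3, h4⟩ := h
    exact ⟨A', h1, h2, fun u hu v hv => h3 u hu v (hAB hv), h4⟩

theorem Lab.pred {χ : α → α → Fin r} {c : Fin r} {t : ℕ} :
    ∀ {w : ℕ} {B : Finset α}, Lab χ c t (w + 1) B → Lab χ c t w B
  | 0, _, _ => trivial
  | _ + 1, _, ⟨A', h1, h2, h3, h4⟩ => ⟨A', h1, h2, h3, Lab.pred h4⟩

theorem Lab.le {χ : α → α → Fin r} {c : Fin r} {t w w' : ℕ} {B : Finset α}
    (h : Lab χ c t w' B) (hw : w ≤ w') : Lab χ c t w B := by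
  induction hw with
  | refl => exact h
  | step _ ih => exact ih h.pred

/-- No `M`-clique of colour `c` inside `Y` has label at least `x`. -/
def Upp (χ : α → α → Fin r) (c : Fin r) (t M x : ℕ) (Y : Finset α) : Prop :=
  ∀ A ⊆ Y, A.card = M → ¬ (Clq χ c A ∧ Lab χ c t x A)

theorem Upp.subset {χ : α → α → Fin r} {c : Fin r} {t M x : ℕ} {Y Z : Finset α}
    (h : Upp χ c t M x Y) (hZ : Z ⊆ Y) : Upp χ c t M x Z :=
  fun A hA => h A (hA.trans hZ)

theorem Upp.le {χ : α → α → Fin r} {c : Fin r} {t M x x' : ℕ} {Y : Finset α}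
    (h : Upp χ c t M x Y) (hx : x ≤ x') : Upp χ c t M x' Y :=
  fun A hA hc hq => h A hA hc ⟨hq.1, hq.2.le hx⟩

/-- `Y` is split into at most `b` cliques of colour `c` with label at least `x`. -/
def Cover (χ : α → α → Fin r) (c : Fin r) (t x b : ℕ) (Y : Finset α) : Prop :=
  ∃ g : α → ℕ, (∀ v ∈ Y, g v < b) ∧
    ∀ i < b, Clq χ c (Y.filter (fun v => g v = i)) ∧ Lab χ c t x (Y.filter (fun v => g v = i))

theorem Cover.subset {χ : α → α → Fin r} {c : Fin r} {t x b : ℕ} {Y Z : Finset α}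
    (h : Cover χ c t x b Y) (hZ : Z ⊆ Y) : Cover χ c t x b Z := by
  obtain ⟨g, h1, h2⟩ := h
  refine ⟨g, fun v hv => h1 v (hZ hv), fun i hi => ?_⟩
  have hs : Z.filter (fun v => g v = i) ⊆ Y.filter (fun v => g v = i) :=
    Finset.filter_subset_filter _ hZ
  exact ⟨(h2 i hi).1.mono hs, (h2 i hi).2.subset hs⟩

/-- The state of colour `c` in `Y` with potential `p`. -/
def St (χ : α → α → Fin r) (c : Fin r) (t M K p : ℕ) (Y : Finset α) : Prop :=
  (p ≤ M ∧ ∀ A ⊆ Y, A.card = p → ¬ Clq χ c A) ∨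
  (∃ a lo, p = M + (a + 1) ∧ Lab χ c t lo Y ∧ Upp χ c t M (lo + K ^ (a + 1) - 1) Y)

/-- The covered state. -/
def Cov (χ : α → α → Fin r) (c : Fin r) (t M K p X : ℕ) (Y : Finset α) : Prop :=
  (p ≤ M ∧ ∀ A ⊆ Y, A.card = p → ¬ Clq χ c A) ∨
  (∃ a, p = M + (a + 1) ∧ St χ c t M K p Y ∧
    ∃ lo b, b * M ≤ X ∧ Cover χ c t lo b Y ∧ Upp χ c t M (lo + K ^ a) Y)

theorem St.subset {χ : α → α → Fin r} {c : Fin r} {t M K p : ℕ} {Y Z : Finset α}
    (h : St χ c t M K p Y) (hZ : Z ⊆ Y) : St χ c t M K p Z := by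
  rcases h with ⟨h1, h2⟩ | ⟨a, lo, h1, h2, h3⟩
  · exact Or.inl ⟨h1, fun A hA => h2 A (hA.trans hZ)⟩
  · exact Or.inr ⟨a, lo, h1, h2.subset hZ, h3.subset hZ⟩

theorem Cov.subset {χ : α → α → Fin r} {c : Fin r} {t M K p X X' : ℕ} {Y Z : Finset α}
    (h : Cov χ c t M K p X Y) (hZ : Z ⊆ Y) (hX : X ≤ X') : Cov χ c t M K p X' Z := by
  rcases h with ⟨h1, h2⟩ | ⟨a, h1, h2, lo, b, h3, h4, h5⟩
  · exact Or.inl ⟨h1, fun A hA => h2 A (hA.trans hZ)⟩
  · exact Or.inr ⟨a, h1, h2.subset hZ, lo, b, h3.trans hX, h4.subset hZ, h5.subset hZ⟩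

theorem Cov.st {χ : α → α → Fin r} {c : Fin r} {t M K p X : ℕ} {Y : Finset α}
    (h : Cov χ c t M K p X Y) : St χ c t M K p Y := by
  rcases h with h | ⟨a, h1, h2, -⟩
  · exact Or.inl h
  · exact h2

/-- Descent through the thresholds. -/
theorem descend (χ : α → α → Fin r) (c : Fin r) (t M lo s : ℕ) (hM : 1 ≤ M) :
    ∀ (j : ℕ) (Z : Finset α), Lab χ c t lo Z → Upp χ c t M (lo + j * s) Z →
      ∃ Y ⊆ Z, Z.card ≤ (j + 1) * Y.card ∧
        ((∀ A ⊆ Y, A.card = M → ¬ Clq χ c A) ∨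
          ∃ x b, b * M ≤ Y.card ∧ Cover χ c t x b Y ∧ Upp χ c t M (x + s) Y) := by
  intro j
  induction j with
  | zero =>
    intro Z h1 h2
    refine ⟨Z, Finset.Subset.refl _, by simp, Or.inl ?_⟩
    intro A hA hc hq
    exact h2 A hA hc ⟨hq, by simpa using h1.subset hA⟩
  | succ j ih =>
    intro Z h1 h2
    obtain ⟨W, b, g, hW, hb, hg, hfib, hrest⟩ :=
      exists_packing (fun A => Clq χ c A ∧ Lab χ c t (lo + j * s) A)
        (fun A B hAB h => ⟨h.1.mono hAB, h.2.subset hAB⟩) M hM Z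
    by_cases hbig : Z.card ≤ (j + 1 + 1) * W.card
    · refine ⟨W, hW, hbig, Or.inr ⟨lo + j * s, b, hb, ⟨g, hg, fun i hi => (hfib i hi).1⟩, ?_⟩⟩
      have : lo + j * s + s = lo + (j + 1) * s := by ring
      rw [this]
      exact h2.subset hW
    · obtain ⟨Y, hY, hcard, hres⟩ := ih (Z \ W) (h1.subset Finset.sdiff_subset) hrest
      refine ⟨Y, hY.trans Finset.sdiff_subset, ?_, hres⟩
      have hc : (Z \ W).card + W.card = Z.card := Finset.card_sdiff_add_card_eq_card hW
      have h3 : (j + 1) * Z.card ≤ (j + 1) * ((j + 1 + 1) * Y.card) := by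
        have : (j + 1 + 1) * (Z \ W).card ≤ (j + 1 + 1) * ((j + 1) * Y.card) :=
          Nat.mul_le_mul_left _ hcard
        nlinarith
      exact Nat.le_of_mul_le_mul_left h3 (by omega)

/-- Refinement of one colour. -/
theorem refine_one (χ : α → α → Fin r) (c : Fin r) (t M K p : ℕ) (hM : 1 ≤ M) (Z : Finset α)
    (h : St χ c t M K p Z) :
    ∃ Y ⊆ Z, Z.card ≤ (K + 1) * Y.card ∧ ∃ p' ≤ p, Cov χ c t M K p' Z.card Y := by
  rcases h with h | ⟨a, lo, h1, h2, h3⟩
  · exact ⟨Z, Finset.Subset.refl _, by nlinarith, p, le_rfl, Or.inl h⟩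
  · have h4 : Upp χ c t M (lo + K * K ^ a) Z := by
      apply h3.le
      rw [pow_succ']
      omega
    obtain ⟨Y, hY, hcard, hres⟩ := descend χ c t M lo (K ^ a) hM K Z h2 h4
    refine ⟨Y, hY, hcard, ?_⟩
    rcases hres with hd | ⟨x, b, hb, hcov, hup⟩
    · exact ⟨M, by omega, Or.inl ⟨le_rfl, hd⟩⟩
    · refine ⟨p, le_rfl, Or.inr ⟨a, h1, ?_, x, b, hb.trans (Finset.card_le_card hY), hcov, hup⟩⟩
      exact St.subset (Or.inr ⟨a, lo, h1, h2, h3⟩) hY

/-- Refinement of all colours. -/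
theorem refine_all (χ : α → α → Fin r) (t M K : ℕ) (hM : 1 ≤ M) (p : Fin r → ℕ) (Z : Finset α)
    (h : ∀ c, St χ c t M K (p c) Z) :
    ∃ Y ⊆ Z, Z.card ≤ (K + 1) ^ r * Y.card ∧ ∃ p' : Fin r → ℕ, (∀ c, p' c ≤ p c) ∧
      ∀ c, Cov χ c t M K (p' c) Z.card Y := by
  have key : ∀ S : Finset (Fin r), ∃ Y ⊆ Z, Z.card ≤ (K + 1) ^ S.card * Y.card ∧
      ∃ p' : Fin r → ℕ, (∀ c, p' c ≤ p c) ∧ ∀ c ∈ S, Cov χ c t M K (p' c) Z.card Y := by
    intro S
    induction S using Finset.induction_on with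
    | empty => exact ⟨Z, Finset.Subset.refl _, by simp, p, fun _ => le_rfl, by simp⟩
    | insert c S hc ih =>
      obtain ⟨Y, hY, hcard, p', hp', hcov⟩ := ih
      obtain ⟨Y', hY', hcard', q, hq, hcov'⟩ := refine_one χ c t M K (p c) hM Y ((h c).subset hY)
      refine ⟨Y', hY'.trans hY, ?_, Function.update p' c q, ?_, ?_⟩
      · rw [Finset.card_insert_of_notMem hc, pow_succ, mul_assoc]
        exact hcard.trans (Nat.mul_le_mul_left _ hcard')
      · intro d
        by_cases hd : d = c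
        · subst hd; simpa using hq
        · simpa [Function.update_of_ne hd] using hp' d
      · intro d hd
        by_cases hdc : d = c
        · subst hdc
          simpa using hcov'.subset (Finset.Subset.refl _) (Finset.card_le_card hY)
        · have : d ∈ S := by
            rcases Finset.mem_insert.mp hd with h' | h'
            · exact absurd h' hdc
            · exact h'
          simpa [Function.update_of_ne hdc] using (hcov d this).subset hY' le_rfl
  obtain ⟨Y, hY, hcard, p', hp', hcov⟩ := key Finset.univ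
  exact ⟨Y, hY, by simpa using hcard, p', hp', fun c => hcov c (Finset.mem_univ _)⟩

/-- A dense colour with a cover by cliques gives a common neighbourhood. -/
theorem alive_step (χ : α → α → Fin r) (c : Fin r) (t x b : ℕ) (ht : 1 ≤ t) (hr : 1 ≤ r)
    (Y₁ Y₂ : Finset α) (hne : Y₁.Nonempty) (hlt : ∀ u ∈ Y₁, ∀ v ∈ Y₂, u < v)
    (hcov : Cover χ c t x b Y₁) (hb : 2 * r * (4 * r * t * b) ≤ Y₁.card)
    (hdense : ∀ y ∈ Y₂, Y₁.card ≤ r * (Y₁.filter (fun u => χ u y = c)).card) :
    ∃ Y ⊆ Y₂, Y₂.card ≤ 4 * r * 2 ^ (4 * r * t) * Y.card ∧ (Y₂.Nonempty → Lab χ c t (x + 1) Y) := by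
  rcases Y₂.eq_empty_or_nonempty with rfl | hne₂
  · exact ⟨∅, Finset.Subset.refl _, by simp, by simp⟩
  set σ := 4 * r * t with hσ
  have hσ1 : 1 ≤ σ := by rw [hσ]; nlinarith
  obtain ⟨W, b', g', hW, hb', hg', hfib, hrest⟩ :=
    exists_packing (fun A => Clq χ c A ∧ Lab χ c t x A)
      (fun A B hAB h => ⟨h.1.mono hAB, h.2.subset hAB⟩) σ hσ1 Y₁
  obtain ⟨g, hg, hgfib⟩ := hcov
  -- the remainder is small
  have hrem : (Y₁ \ W).card ≤ σ * b := by
    have h1 : (Y₁ \ W).card = ∑ i ∈ Finset.range b, ((Y₁ \ W).filter (fun v => g v = i)).card :=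
      Finset.card_eq_sum_card_fiberwise (fun v hv => by
        simpa using hg v (Finset.mem_sdiff.mp hv).1)
    rw [h1]
    have h2 : ∀ i ∈ Finset.range b, ((Y₁ \ W).filter (fun v => g v = i)).card ≤ σ := by
      intro i hi
      by_contra hlt'
      obtain ⟨A, hA, hAc⟩ := Finset.exists_subset_card_eq (le_of_lt (not_le.mp hlt'))
      have hA2 : A ⊆ Y₁.filter (fun v => g v = i) :=
        hA.trans (Finset.filter_subset_filter _ Finset.sdiff_subset)
      have hi' := hgfib i (Finset.mem_range.mp hi)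
      exact hrest A (hA.trans (Finset.filter_subset _ _)) hAc ⟨hi'.1.mono hA2, hi'.2.subset hA2⟩
    have := Finset.sum_le_card_nsmul _ _ _ h2
    simpa [mul_comm] using this
  have hWY : W.card ≤ Y₁.card := Finset.card_le_card hW
  have hdW : ∀ y ∈ Y₂, Y₁.card ≤ 2 * r * (W.filter (fun u => χ u y = c)).card := by
    intro y hy
    have h1 := hdense y hy
    have h2 : (Y₁.filter (fun u => χ u y = c)).card ≤
        (W.filter (fun u => χ u y = c)).card + (Y₁ \ W).card := by
      refine le_trans (Finset.card_le_card ?_) (Finset.card_union_le _ _)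
      intro u hu
      obtain ⟨hu1, hu2⟩ := Finset.mem_filter.mp hu
      by_cases huW : u ∈ W
      · exact Finset.mem_union_left _ (Finset.mem_filter.mpr ⟨huW, hu2⟩)
      · exact Finset.mem_union_right _ (Finset.mem_sdiff.mpr ⟨hu1, huW⟩)
    have h3 : r * (Y₁.filter (fun u => χ u y = c)).card ≤
        r * ((W.filter (fun u => χ u y = c)).card + σ * b) :=
      Nat.mul_le_mul_left _ (h2.trans (by omega))
    nlinarith
  have hb'pos : 0 < b' := by
    obtain ⟨y, hy⟩ := hne₂
    have h1 := hdW y hy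
    have h2 : 0 < (W.filter (fun u => χ u y = c)).card := by
      by_contra h0
      have : (W.filter (fun u => χ u y = c)).card = 0 := by omega
      rw [this] at h1
      have := hne.card_pos
      omega
    obtain ⟨u, hu⟩ := Finset.card_pos.mp h2
    have := hg' u (Finset.mem_filter.mp hu).1
    omega
  -- many blocks are hit in at least `t` points
  have hI : ∀ y ∈ Y₂, (Finset.range b').card ≤ 4 * r * ((Finset.range b').filter (fun i =>
      t ≤ ((W.filter (fun v => g' v = i)).filter (fun u => χ u y = c)).card)).card := by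
    intro y hy
    set I := (Finset.range b').filter (fun i =>
      t ≤ ((W.filter (fun v => g' v = i)).filter (fun u => χ u y = c)).card) with hIdef
    have h1 : (W.filter (fun u => χ u y = c)).card = ∑ i ∈ Finset.range b',
        ((W.filter (fun u => χ u y = c)).filter (fun v => g' v = i)).card :=
      Finset.card_eq_sum_card_fiberwise (fun v hv => by
        simpa using hg' v (Finset.mem_filter.mp hv).1)
    have h2 : ∀ i ∈ Finset.range b',
        ((W.filter (fun u => χ u y = c)).filter (fun v => g' v = i)).card ≤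
          (if i ∈ I then σ else 0) + t := by
      intro i hi
      rw [Finset.filter_comm]
      by_cases hiI : i ∈ I
      · simp only [hiI, if_true]
        have := (Finset.card_filter_le (W.filter (fun v => g' v = i)) (fun u => χ u y = c)).trans
          (hfib i (Finset.mem_range.mp hi)).2
        omega
      · simp only [hiI, if_false]
        have : ¬ t ≤ ((W.filter (fun v => g' v = i)).filter (fun u => χ u y = c)).card :=
          fun h => hiI (Finset.mem_filter.mpr ⟨hi, h⟩)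
        omega
    have h3 : ∑ i ∈ Finset.range b', ((if i ∈ I then σ else 0) + t) = I.card * σ + b' * t := by
      rw [Finset.sum_add_distrib, Finset.sum_ite_mem]
      have : Finset.range b' ∩ I = I := Finset.inter_eq_right.mpr (Finset.filter_subset _ _)
      rw [this]
      simp
    have h4 : (W.filter (fun u => χ u y = c)).card ≤ I.card * σ + b' * t := by
      rw [h1, ← h3]
      exact Finset.sum_le_sum h2
    have h5 := hdW y hy
    rw [Finset.card_range]
    have h6 : b' * σ ≤ 2 * r * (I.card * σ + b' * t) :=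
      hb'.trans (hWY.trans (h5.trans (Nat.mul_le_mul_left _ h4)))
    have h7 : (2 * r * t) * b' ≤ (2 * r * t) * (4 * r * I.card) := by
      rw [hσ] at h6
      nlinarith
    exact Nat.le_of_mul_le_mul_left h7 (by positivity)
  obtain ⟨i, hi, hY3⟩ := exists_popular (Finset.range b') ⟨0, Finset.mem_range.mpr hb'pos⟩ Y₂
    (fun i y => t ≤ ((W.filter (fun v => g' v = i)).filter (fun u => χ u y = c)).card) (4 * r) hI
  set F := W.filter (fun v => g' v = i) with hF
  set Y₃ := Y₂.filter (fun y => t ≤ (F.filter (fun u => χ u y = c)).card) with hY₃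
  obtain ⟨S, hS, hY4⟩ := exists_fiber F.powerset ⟨∅, Finset.empty_mem_powerset _⟩ Y₃
    (fun y => F.filter (fun u => χ u y = c))
    (fun y _ => Finset.mem_powerset.mpr (Finset.filter_subset _ _))
  have hFi := hfib i (Finset.mem_range.mp hi)
  have hpow : F.powerset.card ≤ 2 ^ σ := by
    rw [Finset.card_powerset]
    exact Nat.pow_le_pow_right (by norm_num) hFi.2
  set Y₄ := Y₃.filter (fun y => F.filter (fun u => χ u y = c) = S) with hY₄
  have hcard : Y₂.card ≤ 4 * r * 2 ^ σ * Y₄.card := by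
    calc Y₂.card ≤ 4 * r * Y₃.card := hY3
      _ ≤ 4 * r * (2 ^ σ * Y₄.card) :=
        Nat.mul_le_mul_left _ (hY4.trans (Nat.mul_le_mul_right _ hpow))
      _ = _ := by ring
  refine ⟨Y₄, (Finset.filter_subset _ _).trans (Finset.filter_subset _ _), hcard, fun _ => ?_⟩
  have hY₄ne : Y₄.Nonempty := by
    apply Finset.card_pos.mp
    by_contra h0
    have : Y₄.card = 0 := by omega
    rw [this] at hcard
    have := hne₂.card_pos
    omega
  obtain ⟨y₀, hy₀⟩ := hY₄ne
  have hSt : t ≤ S.card := by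
    obtain ⟨h1, h2⟩ := Finset.mem_filter.mp hy₀
    rw [← h2]
    exact (Finset.mem_filter.mp h1).2
  obtain ⟨A, hAS, hAc⟩ := Finset.exists_subset_card_eq hSt
  have hAF : A ⊆ F := hAS.trans (Finset.mem_powerset.mp hS)
  refine ⟨A, hAc, hFi.1.1.mono hAF, ?_, hFi.1.2.subset hAF⟩
  intro u hu v hv
  obtain ⟨h1, h2⟩ := Finset.mem_filter.mp hv
  refine ⟨hlt u (hW (Finset.mem_filter.mp (hAF hu)).1) v (Finset.mem_filter.mp h1).1, ?_⟩
  have := hAS hu
  rw [← h2] at this
  exact (Finset.mem_filter.mp this).2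

end Pool.Agent.Lib.MP_b29421_co
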