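import Pool.Agent.Lib.MP_b29421_co.Main

namespace Pool.Agent.Lib.MP_b29421_co

open Finset

variable {α : Type*} [LinearOrder α] {r : ℕ}

/-- One round: the potential of one colour drops. -/
theorem round (χ : α → α → Fin r) (t M K X : ℕ) (ht : 1 ≤ t) (hr : 1 ≤ r) (hM : 1 ≤ M)
    (p : Fin r → ℕ) (Y : Finset α) (hY : 2 ≤ Y.card)
    (hX : 24 * r * r * t * X ≤ M * Y.card)
    (h : ∀ c, Cov χ c t M K (p c) X Y) :
    ∃ c, ∃ Y' ⊆ Y, Y.card ≤ 12 * r * r * 2 ^ (4 * r * t) * Y'.card ∧ 1 ≤ p c ∧
      St χ c t M K (p c - 1) Y' := by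
  obtain ⟨Y₁, Y₂, h1, h2, h3, h4, h5⟩ := exists_split Y (Y.card / 2) (Nat.div_le_self _ _)
  have hY₁ : Y.card ≤ 3 * Y₁.card := by omega
  have hY₂ : Y.card ≤ 3 * Y₂.card := by omega
  have hne₁ : Y₁.Nonempty := Finset.card_pos.mp (by omega)
  have hne₂ : Y₂.Nonempty := Finset.card_pos.mp (by omega)
  have huniv : (Finset.univ : Finset (Fin r)).Nonempty := ⟨⟨0, hr⟩, Finset.mem_univ _⟩
  obtain ⟨c, -, hc⟩ := exists_popular (Finset.univ : Finset (Fin r)) huniv Y₂
    (fun c y => Y₁.card ≤ r * (Y₁.filter (fun u => χ u y = c)).card) r (by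
      intro y _
      obtain ⟨c, -, hc⟩ := exists_fiber (Finset.univ : Finset (Fin r)) huniv Y₁
        (fun u => χ u y) (fun _ _ => Finset.mem_univ _)
      have : 1 ≤ (Finset.univ.filter (fun c : Fin r =>
          Y₁.card ≤ r * (Y₁.filter (fun u => χ u y = c)).card)).card :=
        Finset.card_pos.mpr ⟨c, Finset.mem_filter.mpr ⟨Finset.mem_univ _, by simpa using hc⟩⟩
      rw [Finset.card_univ, Fintype.card_fin]
      exact Nat.le_mul_of_pos_right _ this)
  set Y₃ := Y₂.filter (fun y => Y₁.card ≤ r * (Y₁.filter (fun u => χ u y = c)).card) with hY₃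
  have h3sub : Y₃ ⊆ Y₂ := Finset.filter_subset _ _
  have hdense : ∀ y ∈ Y₃, Y₁.card ≤ r * (Y₁.filter (fun u => χ u y = c)).card :=
    fun y hy => (Finset.mem_filter.mp hy).2
  have hne₃ : Y₃.Nonempty := by
    apply Finset.card_pos.mp
    by_contra h0
    have : Y₃.card = 0 := by omega
    rw [this] at hc
    have := hne₂.card_pos
    omega
  have hpow : 1 ≤ 2 ^ (4 * r * t) := Nat.one_le_two_pow
  refine ⟨c, ?_⟩
  rcases h c with ⟨hp, hdead⟩ | ⟨a, hp, -, lo, b, hb, hcov, hup⟩
  · obtain ⟨v, hv, hv2⟩ := exists_popular Y₁ hne₁ Y₃ (fun u y => χ u y = c) r hdense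
    set Y₄ := Y₃.filter (fun y => χ v y = c) with hY₄
    have h4sub : Y₄ ⊆ Y₂ := (Finset.filter_subset _ _).trans h3sub
    have hp1 : 1 ≤ p c := by
      by_contra h0
      exact hdead ∅ (Finset.empty_subset _) (by simp; omega) (fun u hu => by simp at hu)
    refine ⟨Y₄, h4sub.trans h2, ?_, hp1, Or.inl ⟨by omega, ?_⟩⟩
    · calc Y.card ≤ 3 * Y₂.card := hY₂
        _ ≤ 3 * (r * (r * Y₄.card)) :=
          Nat.mul_le_mul_left _ (hc.trans (Nat.mul_le_mul_left _ hv2))
        _ = 3 * r * r * 1 * Y₄.card := by ring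
        _ ≤ 12 * r * r * 2 ^ (4 * r * t) * Y₄.card := by gcongr; norm_num
    · intro A hA hAc hq
      have hvA : v ∉ A := fun hvA => lt_irrefl _ (h5 v hv v (h4sub (hA hvA)))
      apply hdead (insert v A)
      · exact Finset.insert_subset (h1 hv) (hA.trans (h4sub.trans h2))
      · rw [Finset.card_insert_of_notMem hvA]; omega
      · intro x hx y hy hxy
        rcases Finset.mem_insert.mp hx with hx' | hx'
        · rcases Finset.mem_insert.mp hy with hy' | hy'
          · rw [hx', hy'] at hxy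
            exact absurd hxy (lt_irrefl _)
          · rw [hx']
            exact (Finset.mem_filter.mp (hA hy')).2
        · rcases Finset.mem_insert.mp hy with hy' | hy'
          · rw [hy'] at hxy
            exact absurd (h5 v hv x (h4sub (hA hx'))) (not_lt.mpr hxy.le)
          · exact hq x hx' y hy' hxy
  · have hb2 : 2 * r * (4 * r * t * b) ≤ Y₁.card := by
      have e1 : M * (24 * r * r * t * b) ≤ M * Y.card := by
        calc M * (24 * r * r * t * b) = 24 * r * r * t * (b * M) := by ring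
          _ ≤ 24 * r * r * t * X := Nat.mul_le_mul_left _ hb
          _ ≤ M * Y.card := hX
      have e2 : 24 * r * r * t * b ≤ Y.card := Nat.le_of_mul_le_mul_left e1 (by omega)
      have e3 : 24 * r * r * t * b = 3 * (2 * r * (4 * r * t * b)) := by ring
      omega
    obtain ⟨Y₄, h4sub, hcard, hlab⟩ := alive_step χ c t lo b ht hr Y₁ Y₃ hne₁
      (fun u hu v hv => h5 u hu v (h3sub hv)) (hcov.subset h1) hb2 hdense
    have hlab' := hlab hne₃
    have hsub : Y₄ ⊆ Y := h4sub.trans (h3sub.trans h2)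
    refine ⟨Y₄, hsub, ?_, by omega, ?_⟩
    · calc Y.card ≤ 3 * Y₂.card := hY₂
        _ ≤ 3 * (r * (4 * r * 2 ^ (4 * r * t) * Y₄.card)) :=
          Nat.mul_le_mul_left _ (hc.trans (Nat.mul_le_mul_left _ hcard))
        _ = 12 * r * r * 2 ^ (4 * r * t) * Y₄.card := by ring
    · cases a with
      | zero =>
        refine Or.inl ⟨by omega, ?_⟩
        intro A hA hAc hq
        exact hup A (hA.trans hsub) (by omega) ⟨hq, by simpa using hlab'.subset hA⟩
      | succ a =>
        refine Or.inr ⟨a, lo + 1, by omega, hlab', (hup.subset hsub).le (by omega)⟩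

/-- `j` rounds after a refresh. -/
theorem rounds (χ : α → α → Fin r) (t M K R G : ℕ) (ht : 1 ≤ t) (hr : 1 ≤ r) (hM : 1 ≤ M)
    (hG : (K + 1) ^ r * ((K + 1) * (12 * r * r * 2 ^ (4 * r * t))) ^ R ≤ G)
    (hMG : 24 * r * r * t * G ≤ M)
    (p : Fin r → ℕ) (Z : Finset α) (h : ∀ c, St χ c t M K (p c) Z) (hZ : G < Z.card) :
    ∀ j ≤ R, ∃ Y ⊆ Z,
      Z.card ≤ (K + 1) ^ r * ((K + 1) * (12 * r * r * 2 ^ (4 * r * t))) ^ j * Y.card ∧
      ∃ p' : Fin r → ℕ, ∑ c, p' c + j ≤ ∑ c, p c ∧ ∀ c, Cov χ c t M K (p' c) Z.card Y := by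
  set E := 12 * r * r * 2 ^ (4 * r * t) with hE
  have hE1 : 1 ≤ E := by rw [hE]; exact Nat.succ_le_of_lt (by positivity)
  intro j
  induction j with
  | zero =>
    intro _
    obtain ⟨Y, hY, hcard, p', hp', hcov⟩ := refine_all χ t M K hM p Z h
    exact ⟨Y, hY, by simpa using hcard, p', by simpa using Finset.sum_le_sum (fun c _ => hp' c),
      hcov⟩
  | succ j ih =>
    intro hj
    obtain ⟨Y, hY, hcard, p', hp', hcov⟩ := ih (by omega)
    have hGj : (K + 1) ^ r * ((K + 1) * E) ^ j ≤ G := by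
      refine le_trans (Nat.mul_le_mul_left _ (Nat.pow_le_pow_right ?_ (by omega))) hG
      nlinarith
    have hZY : Z.card ≤ G * Y.card := hcard.trans (Nat.mul_le_mul_right _ hGj)
    have hY2 : 2 ≤ Y.card := by
      by_contra hlt
      have : G * Y.card ≤ G * 1 := Nat.mul_le_mul_left _ (by omega)
      omega
    have hX : 24 * r * r * t * Z.card ≤ M * Y.card := by
      calc 24 * r * r * t * Z.card ≤ 24 * r * r * t * (G * Y.card) := Nat.mul_le_mul_left _ hZY
        _ = 24 * r * r * t * G * Y.card := by ring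
        _ ≤ M * Y.card := Nat.mul_le_mul_right _ hMG
    obtain ⟨c, Y', hY', hcard', hp1, hst⟩ := round χ t M K Z.card ht hr hM p' Y hY2 hX hcov
    obtain ⟨Y'', hY'', hcard'', q, hq, hcov''⟩ := refine_one χ c t M K (p' c - 1) hM Y' hst
    refine ⟨Y'', hY''.trans (hY'.trans hY), ?_, Function.update p' c q, ?_, ?_⟩
    · calc Z.card ≤ (K + 1) ^ r * ((K + 1) * E) ^ j * Y.card := hcard
        _ ≤ (K + 1) ^ r * ((K + 1) * E) ^ j * (E * ((K + 1) * Y''.card)) :=
          Nat.mul_le_mul_left _ (hcard'.trans (Nat.mul_le_mul_left _ hcard''))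
        _ = (K + 1) ^ r * ((K + 1) * E) ^ (j + 1) * Y''.card := by ring
    · have e1 : ∑ d, Function.update p' c q d = q + ∑ d ∈ Finset.univ \ {c}, p' d :=
        Finset.sum_update_of_mem (Finset.mem_univ c) p' q
      have e2 : ∑ d, p' d = p' c + ∑ d ∈ Finset.univ \ {c}, p' d := by
        have := Finset.sum_update_of_mem (Finset.mem_univ c) p' (p' c)
        simpa using this
      omega
    · intro d
      by_cases hdc : d = c
      · subst hdc
        simpa using hcov''.subset (Finset.Subset.refl _) (Finset.card_le_card (hY'.trans hY))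
      · simpa [Function.update_of_ne hdc] using (hcov d).subset (hY''.trans hY') le_rfl

/-- The size of a set is bounded in terms of the total potential. -/
theorem card_bound (χ : α → α → Fin r) (t M K R G : ℕ) (ht : 1 ≤ t) (hr : 1 ≤ r) (hM : 1 ≤ M)
    (hG : (K + 1) ^ r * ((K + 1) * (12 * r * r * 2 ^ (4 * r * t))) ^ R ≤ G)
    (hMG : 24 * r * r * t * G ≤ M) :
    ∀ (m : ℕ) (p : Fin r → ℕ) (Z : Finset α), (∀ c, St χ c t M K (p c) Z) →
      ∑ c, p c < (m + 1) * R → Z.card ≤ G ^ (m + 1) := by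
  have hG1 : 1 ≤ G := le_trans (Nat.succ_le_of_lt (by positivity)) hG
  intro m
  induction m with
  | zero =>
    intro p Z h hp
    by_contra hlt
    obtain ⟨Y, -, -, p', hp', -⟩ := rounds χ t M K R G ht hr hM hG hMG p Z h (by simpa using hlt)
      R le_rfl
    omega
  | succ m ih =>
    intro p Z h hp
    by_cases hZ : G < Z.card
    · obtain ⟨Y, hY, hcard, p', hp', hcov⟩ := rounds χ t M K R G ht hr hM hG hMG p Z h hZ R le_rfl
      have h1 := ih p' Y (fun c => (hcov c).st) (by nlinarith)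
      calc Z.card ≤ G * Y.card := hcard.trans (Nat.mul_le_mul_right _ hG)
        _ ≤ G * G ^ (m + 1) := Nat.mul_le_mul_left _ h1
        _ = G ^ (m + 1 + 1) := by ring
    · calc Z.card ≤ G := not_lt.mp hZ
        _ = G ^ 1 := (pow_one G).symm
        _ ≤ G ^ (m + 1 + 1) := Nat.pow_le_pow_right hG1 (by omega)

/-- A chain of cliques gives a power of a path. -/
theorem Lab.path [Nonempty α] {χ : α → α → Fin r} {c : Fin r} {t : ℕ} (ht : 1 ≤ t) :
    ∀ (w : ℕ) (B : Finset α), Lab χ c t w B → ∃ f : ℕ → α,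
      (∀ i j, i < j → j < w * t → f i < f j ∧ (j - i ≤ t → χ (f i) (f j) = c)) ∧
      (∀ i, i < w * t → w * t ≤ i + t → ∀ v ∈ B, f i < v ∧ χ (f i) v = c) := by
  intro w
  induction w with
  | zero =>
    intro B _
    exact ⟨fun _ => Classical.arbitrary α, by simp, by simp⟩
  | succ w ih =>
    rintro B ⟨A, hA, hq, hc, hl⟩
    obtain ⟨f, hf1, hf2⟩ := ih A hl
    let a : ℕ → α := fun i => if h : i < t then A.orderEmbOfFin hA ⟨i, h⟩ else Classical.arbitrary α
    have haA : ∀ i < t, a i ∈ A := by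
      intro i hi
      simp only [a, hi, dif_pos]
      exact Finset.orderEmbOfFin_mem _ _ _
    have hamono : ∀ i j, i < j → j < t → a i < a j := by
      intro i j hij hj
      have hi : i < t := hij.trans hj
      simp only [a, hi, hj, dif_pos]
      exact (A.orderEmbOfFin hA).strictMono (by simpa using hij)
    have hwt : (w + 1) * t = w * t + t := by ring
    refine ⟨fun i => if i < w * t then f i else a (i - w * t), ?_, ?_⟩
    · intro i j hij hj
      by_cases hjw : j < w * t
      · have hiw : i < w * t := hij.trans hjw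
        simp only [hiw, hjw, if_true]
        exact hf1 i j hij hjw
      · have hjt : j - w * t < t := by omega
        by_cases hiw : i < w * t
        · simp only [hiw, hjw, if_true, if_false]
          refine ⟨?_, fun hd => (hf2 i hiw (by omega) _ (haA _ hjt)).2⟩
          have hlast := (hf2 (w * t - 1) (by omega) (by omega) _ (haA _ hjt)).1
          rcases Nat.lt_or_ge i (w * t - 1) with h | h
          · exact (hf1 i (w * t - 1) h (by omega)).1.trans hlast
          · have : i = w * t - 1 := by omega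
            rw [this]; exact hlast
        · simp only [hiw, hjw, if_false]
          have hlt := hamono (i - w * t) (j - w * t) (by omega) hjt
          exact ⟨hlt, fun _ => hq _ (haA _ (by omega)) _ (haA _ hjt) hlt⟩
    · intro i hi hi2 v hv
      have hiw : ¬ i < w * t := by omega
      simp only [hiw, if_false]
      exact hc _ (haA _ (by omega)) v hv

end Pool.Agent.Lib.MP_b29421_co
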